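import Pool.Agent.H41.ET.Defs

/-!
# ET-PARAM: the parameters (helper179)
-/

set_option autoImplicit false

namespace Pool.Agent.H179.ET

open Filter

theorem polylog (C : ℝ) (k : ℕ) : ∃ d₀ : ℕ, ∀ d : ℕ, d₀ ≤ d →
    C * ((Nat.log 2 d + 1 : ℕ) : ℝ) ^ k ≤ d := by
  have h1 := tendsto_pow_const_div_const_pow_of_one_lt k (r := (2 : ℝ)) one_lt_two
  have hpos : (0 : ℝ) < 1 / (2 * (|C| + 1)) := by positivity
  have h2 : ∀ᶠ n : ℕ in atTop, (n : ℝ) ^ k / 2 ^ n < 1 / (2 * (|C| + 1)) :=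
    h1.eventually_lt_const hpos
  obtain ⟨n₀, hn₀⟩ := eventually_atTop.1 h2
  refine ⟨2 ^ n₀, fun d hd => ?_⟩
  have hd0 : d ≠ 0 := by
    have : 0 < 2 ^ n₀ := by positivity
    omega
  have hlog : n₀ ≤ Nat.log 2 d := (Nat.le_log_iff_pow_le one_lt_two hd0).2 hd
  have h3 := hn₀ (Nat.log 2 d + 1) (by omega)
  have h4 : 2 ^ Nat.log 2 d ≤ d := Nat.pow_log_le_self 2 hd0
  have h5 : ((2 : ℝ) ^ Nat.log 2 d) ≤ d := by exact_mod_cast h4
  set x : ℝ := ((Nat.log 2 d + 1 : ℕ) : ℝ) ^ k with hx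
  have hx0 : 0 ≤ x := by positivity
  have h6 : x * (2 * (|C| + 1)) < 2 ^ (Nat.log 2 d + 1) := by
    rw [div_lt_div_iff₀ (by positivity) (by positivity)] at h3
    linarith
  rw [pow_succ] at h6
  have h7 : C * x ≤ |C| * x := mul_le_mul_of_nonneg_right (le_abs_self C) hx0
  nlinarith

theorem four_pow_le_factorial (h : ℕ) (hh : 9 ≤ h) : 4 ^ h ≤ h.factorial := by
  induction h, hh using Nat.le_induction with
  | base => decide
  | succ n hn ih =>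
    rw [pow_succ, Nat.factorial_succ, mul_comm]
    exact Nat.mul_le_mul (by omega) ih

theorem bern (a n : ℕ) : a ^ (n + 1) + (n + 1) * a ^ n ≤ (a + 1) ^ (n + 1) := by
  induction n with
  | zero => simp
  | succ n ih =>
    calc a ^ (n + 1 + 1) + (n + 1 + 1) * a ^ (n + 1)
        ≤ (a ^ (n + 1) + (n + 1) * a ^ n) * (a + 1) := by
          have : (a ^ (n + 1) + (n + 1) * a ^ n) * (a + 1) =
            a ^ (n + 1 + 1) + (n + 1 + 1) * a ^ (n + 1) + (n + 1) * a ^ n := by ring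
          omega
      _ ≤ (a + 1) ^ (n + 1) * (a + 1) := Nat.mul_le_mul_right _ ih
      _ = (a + 1) ^ (n + 1 + 1) := (pow_succ _ _).symm

theorem two_mul_pow (m : ℕ) (hm : 1 ≤ m) : 2 * (m - 1) ^ m ≤ m ^ m := by
  obtain ⟨a, rfl⟩ := Nat.exists_eq_add_of_le' hm
  rw [Nat.add_sub_cancel]
  refine le_trans ?_ (bern a a)
  have : a ^ (a + 1) ≤ (a + 1) * a ^ a := by
    rw [pow_succ, mul_comm]
    exact Nat.mul_le_mul_right _ (by omega)
  omega

theorem param : Pool.Agent.H41.ET.S_PARAM := by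
  intro ε₀ hε₀
  set ε : ℝ := min ε₀ 1 with hεd
  have hε : 0 < ε := lt_min hε₀ one_pos
  have hε1 : ε ≤ 1 := min_le_right _ _
  have hεε : ε ≤ ε₀ := min_le_left _ _
  set q : ℕ := ⌈16 / ε⌉₊ with hq
  have hqr : 16 / ε ≤ (q : ℝ) := Nat.le_ceil _
  have hq0 : (0 : ℝ) < q := lt_of_lt_of_le (by positivity) hqr
  have hq1 : 1 ≤ q := by exact_mod_cast hq0
  set B : ℕ := 208513 * q ^ 2 with hB
  set Cn : ℕ := 181 * q ^ 2 * (2 * B + 18) with hCn
  obtain ⟨d₁, hd₁⟩ := polylog ((Cn : ℝ) + 104 * B ^ 2 / ε + 4 / ε + 36 + q ^ 2) 7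
  refine ⟨max d₁ 1, fun d hd c hc => ?_⟩
  have hd1 : 1 ≤ d := (le_max_right _ _).trans hd
  have hmain := hd₁ d ((le_max_left _ _).trans hd)
  have hd0 : d ≠ 0 := by omega
  set L : ℕ := Nat.log 2 d + 1 with hL
  have hL1 : 1 ≤ L := by omega
  have hdL : d < 2 ^ L := Nat.lt_pow_succ_log_self one_lt_two d
  have hLr : (1 : ℝ) ≤ (L : ℝ) := by exact_mod_cast hL1
  have hB0 : (0 : ℝ) ≤ 104 * (B : ℝ) ^ 2 / ε := by positivity
  have h4ε : (0 : ℝ) ≤ 4 / ε := by positivity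
  have hCn0 : (0 : ℝ) ≤ Cn := Nat.cast_nonneg _
  have hq20 : (0 : ℝ) ≤ (q : ℝ) ^ 2 := by positivity
  have hL7 : (1 : ℝ) ≤ (L : ℝ) ^ 7 := one_le_pow₀ hLr
  -- the consequences of the choice of `d₀`
  have e1 : (Cn : ℝ) * (L : ℝ) ^ 7 ≤ d := by
    refine le_trans (mul_le_mul_of_nonneg_right ?_ (by positivity)) hmain
    linarith
  have e2 : 104 * (B : ℝ) ^ 2 / ε * (L : ℝ) ^ 7 ≤ d := by
    refine le_trans (mul_le_mul_of_nonneg_right ?_ (by positivity)) hmain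
    linarith
  have e3 : 4 / ε ≤ (d : ℝ) := by
    have : 4 / ε * (L : ℝ) ^ 7 ≤ d := by
      refine le_trans (mul_le_mul_of_nonneg_right ?_ (by positivity)) hmain
      linarith
    nlinarith
  have e4 : 36 * (L : ℝ) ^ 7 ≤ d := by
    refine le_trans (mul_le_mul_of_nonneg_right ?_ (by positivity)) hmain
    linarith
  have e5 : (q : ℝ) ^ 2 ≤ d := by
    have : (q : ℝ) ^ 2 * (L : ℝ) ^ 7 ≤ d := by
      refine le_trans (mul_le_mul_of_nonneg_right ?_ (by positivity)) hmain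
      linarith
    nlinarith
  have n1 : Cn * L ^ 7 ≤ d := by exact_mod_cast e1
  have n4 : 36 * L ^ 7 ≤ d := by exact_mod_cast e4
  have n5 : q ^ 2 ≤ d := by exact_mod_cast e5
  have hcd : c ≤ 2 * d := by
    have : (c : ℝ) ≤ 2 * d := by nlinarith
    exact_mod_cast this
  have hLL : L ≤ L ^ 7 := Nat.le_self_pow (by norm_num) L
  set m : ℕ := 3 * L + 6 with hm
  set g : ℕ := m * (5 * L + 5) with hg
  set h : ℕ := 3 * L + 9 with hh
  set D : ℕ := 2 * d / q ^ 2 with hD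
  set θ : ℕ := (D - 1) / (2 * g) with hθ
  set K : ℕ := θ / 8 with hK
  set ξ : ℕ := 8 * m * d / K + 1 with hξ
  have hm9 : m ≤ 9 * L := by omega
  have hg0 : 0 < g := by positivity
  have hg90 : g ≤ 90 * L ^ 2 := by
    calc g ≤ (9 * L) * (10 * L) := Nat.mul_le_mul hm9 (by omega)
      _ = 90 * L ^ 2 := by ring
  have hq2 : 0 < q ^ 2 := by positivity
  have hD1 : 1 ≤ D := (Nat.one_le_div_iff hq2).2 (by omega)
  -- upper bound for `2 d` in terms of `θ`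
  have hup : 2 * d < q ^ 2 * (181 * L ^ 2 * (θ + 1)) := by
    have s1 : 2 * d < q ^ 2 * (D + 1) := Nat.lt_mul_div_succ (2 * d) hq2
    have s2 : D - 1 < (2 * g) * (θ + 1) := Nat.lt_mul_div_succ (D - 1) (by omega)
    have s3 : D + 1 ≤ 181 * L ^ 2 * (θ + 1) := by
      have s4 : D ≤ (2 * g) * (θ + 1) := by omega
      have s5 : (2 * g) * (θ + 1) ≤ (180 * L ^ 2) * (θ + 1) := Nat.mul_le_mul_right _ (by omega)
      have s6 : 1 ≤ L ^ 2 * (θ + 1) := Nat.one_le_iff_ne_zero.2 (by positivity)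
      have s7 : (180 * L ^ 2) * (θ + 1) = 180 * (L ^ 2 * (θ + 1)) := by ring
      have s8 : 181 * L ^ 2 * (θ + 1) = 181 * (L ^ 2 * (θ + 1)) := by ring
      rw [s8]
      rw [s7] at s5
      generalize L ^ 2 * (θ + 1) = y at s5 s6 ⊢
      generalize (2 * g) * (θ + 1) = z at s4 s5
      omega
    exact lt_of_lt_of_le s1 (Nat.mul_le_mul_left _ s3)
  -- lower bound for `θ`
  have hθT : 2 * ((2 * B + 18) * L ^ 3) ≤ θ := by
    by_contra hlt
    push Not at hlt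
    have s1 : θ + 1 ≤ 2 * ((2 * B + 18) * L ^ 3) := hlt
    have s2 : q ^ 2 * (181 * L ^ 2 * (θ + 1)) ≤
        q ^ 2 * (181 * L ^ 2 * (2 * ((2 * B + 18) * L ^ 3))) := by gcongr
    have s3 : q ^ 2 * (181 * L ^ 2 * (2 * ((2 * B + 18) * L ^ 3))) = 2 * (Cn * L ^ 5) := by
      rw [hCn]; ring
    have s4 : Cn * L ^ 5 ≤ Cn * L ^ 7 :=
      Nat.mul_le_mul_left _ (Nat.pow_le_pow_right hL1 (by norm_num))
    omega
  have hL3 : 1 ≤ L ^ 3 := Nat.one_le_iff_ne_zero.2 (by positivity)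
  have hθ36 : 36 ≤ θ := by
    refine le_trans ?_ hθT
    calc 36 = 2 * (18 * 1) := by norm_num
      _ ≤ 2 * ((2 * B + 18) * L ^ 3) := by gcongr; omega
  have hK1 : θ ≤ 16 * K := by omega
  have hK0 : 0 < K := by omega
  have hdK : d ≤ 2896 * q ^ 2 * L ^ 2 * K := by
    have s1 : θ + 1 ≤ 2 * θ := by omega
    have s2 : q ^ 2 * (181 * L ^ 2 * (θ + 1)) ≤ q ^ 2 * (181 * L ^ 2 * (2 * (16 * K))) := by
      gcongr
      omega
    have s3 : q ^ 2 * (181 * L ^ 2 * (2 * (16 * K))) = 2 * (2896 * q ^ 2 * L ^ 2 * K) := by ring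
    omega
  have hξB : ξ ≤ B * L ^ 3 := by
    have s1 : 8 * m * d ≤ (208512 * q ^ 2 * L ^ 3) * K := by
      calc 8 * m * d ≤ 8 * (9 * L) * (2896 * q ^ 2 * L ^ 2 * K) := by gcongr
        _ = (208512 * q ^ 2 * L ^ 3) * K := by ring
    have s2 : 8 * m * d / K ≤ 208512 * q ^ 2 * L ^ 3 := Nat.div_le_of_le_mul (by
      rw [mul_comm K]; exact s1)
    have s3 : 1 ≤ q ^ 2 * L ^ 3 := Nat.one_le_iff_ne_zero.2 (by positivity)
    have s4 : B * L ^ 3 = 208512 * q ^ 2 * L ^ 3 + q ^ 2 * L ^ 3 := by rw [hB]; ring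
    omega
  have hθd : θ ≤ d := by
    have s1 : θ ≤ D - 1 := Nat.div_le_self _ _
    have s2 : D ≤ 2 * d := Nat.div_le_self _ _
    have s3 : θ * 2 ≤ D - 1 := by
      calc θ * 2 ≤ θ * (2 * g) := Nat.mul_le_mul_left _ (by omega)
        _ ≤ D - 1 := Nat.div_mul_le_self _ _
    omega
  refine ⟨q, m, g, θ, h, K, ξ, hq1, by omega, ?_, ?_, ?_, ?_, ?_, ?_, ?_, ?_⟩
  · -- i1
    calc 4 * (2 * d) * c * (d + 1) ≤ 4 * (2 * 2 ^ L) * (2 * 2 ^ L) * 2 ^ L := by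
          gcongr
          · exact hcd.trans (by omega)
          · omega
      _ = 2 ^ (3 * L + 4) := by ring
      _ ≤ 2 ^ (m + 1) := Nat.pow_le_pow_right (by norm_num) (by omega)
  · -- i2
    have s1 : 4 * (2 * d) * c * (2 * d) * θ * (d + 1) ≤ 2 ^ (5 * L + 5) := by
      calc 4 * (2 * d) * c * (2 * d) * θ * (d + 1)
          ≤ 4 * (2 * 2 ^ L) * (2 * 2 ^ L) * (2 * 2 ^ L) * 2 ^ L * 2 ^ L := by
            gcongr
            · exact hcd.trans (by omega)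
            · exact hθd.trans hdL.le
            · omega
        _ = 2 ^ (5 * L + 5) := by ring
    calc 4 * (2 * d) * c * (2 * d) * θ * (d + 1) * (m - 1) ^ g
        ≤ 2 ^ (5 * L + 5) * (m - 1) ^ g := Nat.mul_le_mul_right _ s1
      _ = (2 * (m - 1) ^ m) ^ (5 * L + 5) := by rw [mul_pow, ← pow_mul]
      _ ≤ (m ^ m) ^ (5 * L + 5) := Nat.pow_le_pow_left (two_mul_pow m (by omega)) _
      _ = m ^ g := by rw [← pow_mul]
  · -- i3
    calc 4 * c * (2 * d) ^ 2 * 2 ^ h ≤ 4 * (2 * 2 ^ L) * (2 * 2 ^ L) ^ 2 * 2 ^ h := by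
          gcongr
          exact hcd.trans (by omega)
      _ = 2 ^ (3 * L + 5 + h) := by ring
      _ ≤ 2 ^ (2 * h) := Nat.pow_le_pow_right (by norm_num) (by omega)
      _ = 4 ^ h := by rw [pow_mul]; norm_num
      _ ≤ h.factorial := four_pow_le_factorial h (by omega)
  · -- i4
    omega
  · -- i5
    have s1 : θ * (2 * g) ≤ D - 1 := Nat.div_mul_le_self _ _
    have s2 : 2 * θ * g = θ * (2 * g) := by ring
    omega
  · -- i6
    have s1 : 8 * m * d < (8 * m * d / K + 1) * K :=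
      Nat.lt_mul_of_div_lt (by omega) hK0
    refine lt_of_le_of_lt ?_ s1
    calc 4 * m * c ≤ 4 * m * (2 * d) := Nat.mul_le_mul_left _ hcd
      _ = 8 * m * d := by ring
  · -- i7
    have s1 : ((2 * (2 * d / q) : ℕ) : ℝ) ≤ ε * d / 4 := by
      have s2 : ((2 * d / q : ℕ) : ℝ) ≤ (2 * d : ℕ) / (q : ℝ) := Nat.cast_div_le
      have s3 : ((2 * d : ℕ) : ℝ) / (q : ℝ) ≤ ε * d / 8 := by
        rw [div_le_iff₀ hq0]
        have s4 : 16 ≤ ε * q := by
          rw [div_le_iff₀ hε] at hqr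
          linarith
        push_cast
        have : (0 : ℝ) ≤ d := Nat.cast_nonneg _
        nlinarith
      push_cast at s2 s3 ⊢
      linarith
    have s5 : ((ξ ^ 2 * (2 * h + 2) : ℕ) : ℝ) ≤ ε * d / 4 := by
      have s6 : ξ ^ 2 * (2 * h + 2) ≤ (B * L ^ 3) ^ 2 * (26 * L) := by
        gcongr
        omega
      have s7 : ((ξ ^ 2 * (2 * h + 2) : ℕ) : ℝ) ≤ (((B * L ^ 3) ^ 2 * (26 * L) : ℕ) : ℝ) := by
        exact_mod_cast s6
      refine s7.trans ?_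
      have s8 : (((B * L ^ 3) ^ 2 * (26 * L) : ℕ) : ℝ) = 26 * (B : ℝ) ^ 2 * (L : ℝ) ^ 7 := by
        push_cast
        ring
      rw [s8]
      have s9 : 104 * (B : ℝ) ^ 2 * (L : ℝ) ^ 7 ≤ ε * d := by
        have : 104 * (B : ℝ) ^ 2 / ε * (L : ℝ) ^ 7 = 104 * (B : ℝ) ^ 2 * (L : ℝ) ^ 7 / ε := by ring
        rw [this, div_le_iff₀ hε] at e2
        linarith
      linarith
    have s10 : (c : ℝ) ≤ (2 - ε) * d := by
      refine hc.trans (mul_le_mul_of_nonneg_right ?_ (Nat.cast_nonneg _))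
      linarith
    have s11 : 4 ≤ ε * d := by
      rw [div_le_iff₀ hε] at e3
      linarith
    have s12 : ((c + (2 * (2 * d / q) + 1) + ξ ^ 2 * (2 * h + 2) + 1 : ℕ) : ℝ) ≤
        ((2 * d : ℕ) : ℝ) := by
      have s13 : ((c + (2 * (2 * d / q) + 1) + ξ ^ 2 * (2 * h + 2) + 1 : ℕ) : ℝ) =
          (c : ℝ) + ((2 * (2 * d / q) : ℕ) : ℝ) + ((ξ ^ 2 * (2 * h + 2) : ℕ) : ℝ) + 2 := by
        push_cast
        ring
      rw [s13]
      push_cast at s1 s5 ⊢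
      linarith
    have s14 : c + (2 * (2 * d / q) + 1) + ξ ^ 2 * (2 * h + 2) + 1 ≤ 2 * d := by
      exact_mod_cast s12
    omega
  · -- i8
    have s1 : 2 * m + 2 * ξ ≤ (2 * B + 18) * L ^ 3 := by
      have s2 : L ≤ L ^ 3 := Nat.le_self_pow (by norm_num) L
      have s3 : (2 * B + 18) * L ^ 3 = 2 * (B * L ^ 3) + 18 * L ^ 3 := by ring
      omega
    omega

end Pool.Agent.H179.ET
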